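import Pool.Agent.helper91.RB.Spec1

/-!
# Row rb:DZS (MP_24e2e7_nt): the Dedekind zeta function as a sum over ideals
-/

set_option autoImplicit false

namespace Pool.Agent.RB

open NumberField NumberField.InfinitePlace NumberField.Units NumberField.Units.dirichletUnitTheorem
open MeasureTheory Filter Topology Module
open scoped nonZeroDivisors Real Classical

theorem DZS_bigO (K : Type) [Field K] [NumberField K] :
    (fun n : ℕ => ∑ k ∈ Finset.Icc 1 n, ((Nat.card {I : Ideal (𝓞 K) // Ideal.absNorm I = k} : ℕ) : ℝ))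
      =O[atTop] fun n : ℕ => (n : ℝ) ^ (1 : ℝ) := by
  have h1 : Tendsto (fun n : ℕ => (∑ k ∈ Finset.Icc 1 n,
      ((Nat.card {I : Ideal (𝓞 K) // Ideal.absNorm I = k} : ℕ) : ℝ)) / (n : ℝ)) atTop
      (𝓝 ((2 ^ nrRealPlaces K * (2 * π) ^ nrComplexPlaces K * regulator K * classNumber K) /
            (torsionOrder K * Real.sqrt |discr K|))) := by
    refine ((Ideal.tendsto_norm_le_div_atTop₀ K).comp tendsto_natCast_atTop_atTop).congr fun n ↦ ?_
    simp only [Function.comp_apply, Nat.cast_le, ← Nat.cast_sum]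
    congr
    rw [← add_left_inj 1, ← Ideal.card_norm_le_eq_card_norm_le_add_one,
      show Finset.Icc 1 n = Finset.Ioc 0 n from Finset.Icc_succ_left_eq_Ioc _ _,
      show 1 = Nat.card {I : Ideal (𝓞 K) // Ideal.absNorm I = 0} by simp [Ideal.absNorm_eq_zero_iff],
      Finset.sum_Ioc_add_eq_sum_Icc (n.zero_le),
      ← Finset.card_preimage_eq_sum_card_image_eq (fun k _ ↦ Ideal.finite_setOfPred_absNorm_eq k)]
    simp [Set.coe_eq_subtype]
  have h2 := h1.isBigO_one ℝ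
  have h3 := h2.mul (Asymptotics.isBigO_refl (fun n : ℕ => (n : ℝ)) atTop)
  refine Asymptotics.IsBigO.congr' h3 ?_ ?_
  · filter_upwards [eventually_ne_atTop 0] with n hn
    have hn' : (n : ℝ) ≠ 0 := by exact_mod_cast hn
    field_simp
  · filter_upwards with n
    rw [one_mul, Real.rpow_one]

theorem DZS : DZS_stmt := by
  intro K _ _ s hs
  set N : {I : Ideal (𝓞 K) // I ≠ ⊥} → ℕ := fun I => Ideal.absNorm (I : Ideal (𝓞 K)) with hN
  have hN0 : ∀ I, N I ≠ 0 := by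
    intro I h
    exact I.2 (Ideal.absNorm_eq_zero_iff.1 h)
  have hequiv : ∀ n : ℕ, n ≠ 0 → Nonempty ({I : {I : Ideal (𝓞 K) // I ≠ ⊥} // N I = n} ≃
      {I : Ideal (𝓞 K) // Ideal.absNorm I = n}) := by
    intro n hn
    refine ⟨⟨fun J => ⟨J.1.1, J.2⟩, fun J => ⟨⟨J.1, ?_⟩, J.2⟩, ?_, ?_⟩⟩
    · intro h
      apply hn
      rw [← J.2, h]
      simp
    · intro J; rfl
    · intro J; rfl
  have hfin : ∀ n : ℕ, Finite {I : {I : Ideal (𝓞 K) // I ≠ ⊥} // N I = n} := by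
    intro n
    by_cases hn : n = 0
    · subst hn
      have : IsEmpty {I : {I : Ideal (𝓞 K) // I ≠ ⊥} // N I = 0} := ⟨fun J => hN0 _ J.2⟩
      infer_instance
    · obtain ⟨e⟩ := hequiv n hn
      have h1 : Finite {I : Ideal (𝓞 K) // Ideal.absNorm I = n} :=
        (Ideal.finite_setOfPred_absNorm_eq n).to_subtype
      exact Finite.of_equiv _ e.symm
  have hL : LSeriesSummable (fun n => ((Nat.card {I : Ideal (𝓞 K) // Ideal.absNorm I = n} : ℕ) : ℂ))
      s := by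
    have h1 := LSeriesSummable_of_sum_norm_bigO_and_nonneg (DZS_bigO K) (fun n => Nat.cast_nonneg _)
      zero_le_one hs
    simpa using h1
  have hterm : ∀ n : ℕ, LSeries.term
      (fun n => ((Nat.card {I : Ideal (𝓞 K) // Ideal.absNorm I = n} : ℕ) : ℂ)) s n =
      ∑' J : {I : {I : Ideal (𝓞 K) // I ≠ ⊥} // N I = n}, ((N J.1 : ℕ) : ℂ) ^ (-s) := by
    intro n
    have h0 : ∀ J : {I : {I : Ideal (𝓞 K) // I ≠ ⊥} // N I = n},
        ((N J.1 : ℕ) : ℂ) ^ (-s) = (n : ℂ) ^ (-s) := fun J => by rw [J.2]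
    have hf := hfin n
    rw [tsum_congr h0, tsum_const, nsmul_eq_mul]
    by_cases hn : n = 0
    · subst hn
      have : IsEmpty {I : {I : Ideal (𝓞 K) // I ≠ ⊥} // N I = 0} := ⟨fun J => hN0 _ J.2⟩
      simp
    · obtain ⟨e⟩ := hequiv n hn
      rw [LSeries.term_of_ne_zero hn, Nat.card_congr e, Complex.cpow_neg, div_eq_mul_inv]
  have hnorm : ∀ n : ℕ, ‖LSeries.term
      (fun n => ((Nat.card {I : Ideal (𝓞 K) // Ideal.absNorm I = n} : ℕ) : ℂ)) s n‖ =
      ∑' J : {I : {I : Ideal (𝓞 K) // I ≠ ⊥} // N I = n}, ‖((N J.1 : ℕ) : ℂ) ^ (-s)‖ := by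
    intro n
    have h0 : ∀ J : {I : {I : Ideal (𝓞 K) // I ≠ ⊥} // N I = n},
        ‖((N J.1 : ℕ) : ℂ) ^ (-s)‖ = ‖(n : ℂ) ^ (-s)‖ := fun J => by rw [J.2]
    have h0' : ∀ J : {I : {I : Ideal (𝓞 K) // I ≠ ⊥} // N I = n},
        ((N J.1 : ℕ) : ℂ) ^ (-s) = (n : ℂ) ^ (-s) := fun J => by rw [J.2]
    rw [hterm n, tsum_congr h0, tsum_congr h0', tsum_const, tsum_const, nsmul_eq_mul, nsmul_eq_mul,
      norm_mul, Complex.norm_natCast]
  set e := Equiv.sigmaFiberEquiv N with he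
  have hS : Summable (fun x : (Σ n : ℕ, {I : {I : Ideal (𝓞 K) // I ≠ ⊥} // N I = n}) =>
      ((N x.2.1 : ℕ) : ℂ) ^ (-s)) := by
    apply Summable.of_norm
    rw [summable_sigma_of_nonneg (fun x => norm_nonneg _)]
    refine ⟨fun n => ?_, ?_⟩
    · have hf := hfin n
      have hft := Fintype.ofFinite {I : {I : Ideal (𝓞 K) // I ≠ ⊥} // N I = n}
      exact (hasSum_fintype _).summable
    · have h1 := (hL.norm)
      refine h1.congr (fun n => ?_)
      exact hnorm n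
  have hS2 : Summable (fun I : {I : Ideal (𝓞 K) // I ≠ ⊥} =>
      ((Ideal.absNorm (I : Ideal (𝓞 K)) : ℕ) : ℂ) ^ (-s)) := by
    rw [← e.summable_iff]
    exact hS
  refine ⟨hS2, ?_⟩
  rw [← e.tsum_eq]
  have h1 : ∑' x : (Σ n : ℕ, {I : {I : Ideal (𝓞 K) // I ≠ ⊥} // N I = n}),
      ((Ideal.absNorm ((e x : {I : Ideal (𝓞 K) // I ≠ ⊥}) : Ideal (𝓞 K)) : ℕ) : ℂ) ^ (-s) =
      ∑' n : ℕ, ∑' J : {I : {I : Ideal (𝓞 K) // I ≠ ⊥} // N I = n}, ((N J.1 : ℕ) : ℂ) ^ (-s) :=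
    hS.tsum_sigma
  rw [h1, dedekindZeta, LSeries]
  exact tsum_congr (fun n => (hterm n).symm)

end Pool.Agent.RB
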