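import Pool.Agent.helper91.RB.Spec3

/-!
# Row rb:RES (MP_24e2e7_nt): residues of the elements of relative norm 1
-/

set_option autoImplicit false

namespace Pool.Agent.RB

open NumberField IsDedekindDomain Module
open scoped nonZeroDivisors Real Classical

section residue

variable {K : Type} [Field K] [NumberField K]

theorem RES_exists (P : HOS K) (x : K) (hx : P.valuation K x ≤ 1) :
    ∃ a : 𝓞 K, P.valuation K ((a : K) - x) < 1 := by
  obtain ⟨a, ha⟩ := P.exists_valuation_sub_lt_of_integer hx 1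
  exact ⟨a, by simpa using ha⟩

/-- the residue of an integral element -/
noncomputable def RES_r (P : HOS K) (x : K) : 𝓞 K ⧸ P.asIdeal :=
  if hx : P.valuation K x ≤ 1 then Ideal.Quotient.mk P.asIdeal (RES_exists P x hx).choose else 0

theorem RES_r_spec (P : HOS K) (x : K) (a : 𝓞 K) (ha : P.valuation K ((a : K) - x) < 1) :
    RES_r P x = Ideal.Quotient.mk P.asIdeal a := by
  have hx : P.valuation K x ≤ 1 := by
    have h1 : x = (a : K) - ((a : K) - x) := by ring
    rw [h1]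
    exact (Valuation.map_sub _ _ _).trans (max_le (P.valuation_le_one a) ha.le)
  rw [RES_r, dif_pos hx]
  have h2 := (RES_exists P x hx).choose_spec
  set b := (RES_exists P x hx).choose with hb
  rw [Ideal.Quotient.eq, ← P.valuation_lt_one_iff_mem (K := K)]
  have h3 : (algebraMap (𝓞 K) K) (b - a) = ((b : K) - x) - ((a : K) - x) := by
    rw [map_sub]; ring
  change P.valuation K ((algebraMap (𝓞 K) K) (b - a)) < 1
  rw [h3]
  exact (Valuation.map_sub _ _ _).trans_lt (max_lt h2 ha)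

theorem RES_r_one (P : HOS K) : RES_r P (1 : K) = 1 := by
  rw [RES_r_spec P 1 1 (by simp)]
  exact map_one _

theorem RES_r_mul (P : HOS K) (x y : K) (hx : P.valuation K x ≤ 1) (hy : P.valuation K y ≤ 1) :
    RES_r P (x * y) = RES_r P x * RES_r P y := by
  obtain ⟨a, ha⟩ := RES_exists P x hx
  obtain ⟨b, hb⟩ := RES_exists P y hy
  rw [RES_r_spec P x a ha, RES_r_spec P y b hb, ← map_mul]
  refine RES_r_spec P _ _ ?_
  have h1 : ((a * b : 𝓞 K) : K) - x * y = ((a : K) - x) * b + ((b : K) - y) * x := by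
    have h0 : ((a * b : 𝓞 K) : K) = (a : K) * (b : K) := rfl
    rw [h0]; ring
  rw [h1]
  refine (Valuation.map_add _ _ _).trans_lt (max_lt ?_ ?_)
  · rw [map_mul]
    exact mul_lt_one_of_lt_of_le ha (P.valuation_le_one b)
  · rw [map_mul]
    exact mul_lt_one_of_lt_of_le hb hx

theorem RES_r_eq_one (P : HOS K) (x : K) (hx : P.valuation K x ≤ 1) (h : RES_r P x = 1) :
    P.valuation K (x - 1) < 1 := by
  obtain ⟨a, ha⟩ := RES_exists P x hx
  rw [RES_r_spec P x a ha] at h
  have h1 : a - 1 ∈ P.asIdeal := by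
    rw [← Ideal.Quotient.eq, h, map_one]
  rw [← P.valuation_lt_one_iff_mem (K := K)] at h1
  have h2 : x - 1 = (algebraMap (𝓞 K) K) (a - 1) - ((a : K) - x) := by
    rw [map_sub, map_one]; ring
  rw [h2]
  exact (Valuation.map_sub _ _ _).trans_lt (max_lt h1 ha)

/-- the residue map of a group of `P`-units -/
noncomputable def RES_hom (P : HOS K) (X : Subgroup Kˣ) (hX : ∀ x ∈ X, P.valuation K (x : K) ≤ 1) :
    X →* (𝓞 K ⧸ P.asIdeal)ˣ :=
  MonoidHom.toHomUnits {
    toFun := fun x => RES_r P ((x : Kˣ) : K)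
    map_one' := by
      change RES_r P (((1 : X) : Kˣ) : K) = 1
      rw [Subgroup.coe_one, Units.val_one]
      exact RES_r_one P
    map_mul' := by
      intro x y
      change RES_r P (((x * y : X) : Kˣ) : K) = _
      rw [Subgroup.coe_mul, Units.val_mul]
      exact RES_r_mul P _ _ (hX x x.2) (hX y y.2) }

theorem RES_hom_apply (P : HOS K) (X : Subgroup Kˣ) (hX : ∀ x ∈ X, P.valuation K (x : K) ≤ 1) (x : X) :
    ((RES_hom P X hX x : (𝓞 K ⧸ P.asIdeal)ˣ) : 𝓞 K ⧸ P.asIdeal) = RES_r P ((x : Kˣ) : K) := rfl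

theorem RES_card (P : HOS K) : Nat.card (𝓞 K ⧸ P.asIdeal) = nm P := by
  rw [nm, Ideal.absNorm_apply, Submodule.cardQuot_apply]

theorem RES_two_le (P : HOS K) : 2 ≤ nm P := by
  have h1 : nm P ≠ 1 := by
    rw [nm, Ne, Ideal.absNorm_eq_one_iff]
    exact P.isPrime.ne_top
  have h0 : nm P ≠ 0 := by
    rw [nm, Ne, Ideal.absNorm_eq_zero_iff]
    exact P.ne_bot
  omega

/-- the index of the kernel divides the order of a group containing the image -/
theorem RES_index (P : HOS K) (X X₁ : Subgroup Kˣ) (hX : ∀ x ∈ X, P.valuation K (x : K) ≤ 1)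
    (h1 : ∀ x ∈ X, P.valuation K ((x : K) - 1) < 1 → x ∈ X₁) :
    X₁.relIndex X ∣ Nat.card (RES_hom P X hX).range := by
  rw [← Subgroup.index_ker]
  refine Subgroup.index_dvd_of_le ?_
  intro x hx
  rw [Subgroup.mem_subgroupOf]
  refine h1 _ x.2 (RES_r_eq_one P _ (hX _ x.2) ?_)
  rw [MonoidHom.mem_ker] at hx
  rw [← RES_hom_apply P X hX x, hx, Units.val_one]

theorem RES_index_split (P : HOS K) (X X₁ : Subgroup Kˣ) (hX : ∀ x ∈ X, P.valuation K (x : K) ≤ 1)
    (h1 : ∀ x ∈ X, P.valuation K ((x : K) - 1) < 1 → x ∈ X₁) : X₁.relIndex X ∣ nm P - 1 := by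
  have := P.isMaximal
  let : Field (𝓞 K ⧸ P.asIdeal) := Ideal.Quotient.field P.asIdeal
  have h2 : Nat.card (𝓞 K ⧸ P.asIdeal)ˣ = nm P - 1 := by
    rw [Nat.card_units, RES_card]
  rw [← h2]
  exact (RES_index P X X₁ hX h1).trans (Subgroup.card_subgroup_dvd_card _)

theorem RES_index_inert (P : HOS K) (X X₁ : Subgroup Kˣ) (hX : ∀ x ∈ X, P.valuation K (x : K) ≤ 1)
    (h1 : ∀ x ∈ X, P.valuation K ((x : K) - 1) < 1 → x ∈ X₁) (N : ℕ)
    (h2 : ∀ x ∈ X, RES_r P (x : K) ^ (N + 1) = 1) : X₁.relIndex X ∣ N + 1 := by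
  have := P.isMaximal
  let : Field (𝓞 K ⧸ P.asIdeal) := Ideal.Quotient.field P.asIdeal
  have : Finite (𝓞 K ⧸ P.asIdeal) := Nat.finite_of_card_ne_zero (by
    rw [RES_card]
    have := RES_two_le P
    omega)
  have : Fintype (𝓞 K ⧸ P.asIdeal) := Fintype.ofFinite _
  refine (RES_index P X X₁ hX h1).trans ?_
  rw [← IsCyclic.exponent_eq_card]
  refine Monoid.exponent_dvd_of_forall_pow_eq_one ?_
  rintro ⟨y, x, rfl⟩
  apply Subtype.ext
  apply Units.ext
  exact h2 x x.2

end residue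

section frob

variable {k K : Type} [Field k] [NumberField k] [Field K] [NumberField K] [Algebra k K]
  [Algebra.IsQuadraticExtension k K]

theorem RES_gal (c : K ≃ₐ[k] K) (hc : c ≠ 1) (σ : K ≃ₐ[k] K) : σ = 1 ∨ σ = c := by
  have h1 : Nat.card (K ≃ₐ[k] K) = 2 := by
    rw [IsGalois.card_aut_eq_finrank, Algebra.IsQuadraticExtension.finrank_eq_two]
  have : Fintype (K ≃ₐ[k] K) := Fintype.ofFinite _
  rw [Nat.card_eq_fintype_card] at h1
  have h2 : ({1, c} : Finset (K ≃ₐ[k] K)) = Finset.univ := by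
    apply Finset.eq_univ_of_card
    rw [Finset.card_pair (Ne.symm hc), h1]
  have h3 : σ ∈ ({1, c} : Finset (K ≃ₐ[k] K)) := by
    rw [h2]
    exact Finset.mem_univ σ
  simpa using h3

theorem RES_sq (c : K ≃ₐ[k] K) (hc : c ≠ 1) (x : K) : c (c x) = x := by
  rcases RES_gal c hc (c * c) with h | h
  · have := congrArg (fun f : K ≃ₐ[k] K => f x) h
    simpa using this
  · exact absurd (mul_eq_left.1 h) hc

theorem RES_fix (c : K ≃ₐ[k] K) (hc : c ≠ 1) (x : K) (hx : c x = x) : ∃ y : k, algebraMap k K y = x := by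
  have h1 := (IsGalois.mem_range_algebraMap_iff_fixed (F := k) (E := K) x).2 (fun σ => by
    rcases RES_gal c hc σ with h | h
    · rw [h]; rfl
    · rw [h]; exact hx)
  exact h1

theorem RES_fixint (c : K ≃ₐ[k] K) (hc : c ≠ 1) (x : 𝓞 K) (hx : c (x : K) = x) :
    ∃ y : 𝓞 k, algebraMap (𝓞 k) (𝓞 K) y = x := by
  obtain ⟨y, hy⟩ := RES_fix c hc (x : K) hx
  have h1 : IsIntegral ℤ y := by
    have h2 : IsIntegral ℤ (algebraMap k K y) := by
      rw [hy]
      exact x.2
    exact (isIntegral_algebraMap_iff (algebraMap k K).injective).1 h2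
  refine ⟨⟨y, h1⟩, ?_⟩
  apply RingOfIntegers.ext
  exact hy

/-- Fermat for the residue field of `q` -/
theorem RES_fermat (q : HOS k) (y : 𝓞 k) : y ^ nm q - y ∈ q.asIdeal := by
  have := q.isMaximal
  let _ : Field (𝓞 k ⧸ q.asIdeal) := Ideal.Quotient.field q.asIdeal
  have : Finite (𝓞 k ⧸ q.asIdeal) := Nat.finite_of_card_ne_zero (by
    rw [RES_card]
    have := RES_two_le q
    omega)
  have : Fintype (𝓞 k ⧸ q.asIdeal) := Fintype.ofFinite _
  have h1 := FiniteField.pow_card (Ideal.Quotient.mk q.asIdeal y)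
  rw [← Nat.card_eq_fintype_card, RES_card] at h1
  rw [← Ideal.Quotient.eq, map_pow]
  exact h1

omit [Algebra.IsQuadraticExtension k K] in
theorem RES_fermat2 (q : HOS k) (P : HOS K) (hP : P.under (𝓞 k) = q) (y : 𝓞 k) :
    Ideal.Quotient.mk P.asIdeal (algebraMap (𝓞 k) (𝓞 K) y) ^ nm q =
      Ideal.Quotient.mk P.asIdeal (algebraMap (𝓞 k) (𝓞 K) y) := by
  rw [← map_pow, ← map_pow, Ideal.Quotient.eq, ← map_sub]
  have h1 := RES_fermat q y
  rw [← hP] at h1
  rw [HeightOneSpectrum.under_asIdeal, Ideal.mem_under] at h1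
  rw [← hP]
  exact h1

omit [Algebra.IsQuadraticExtension k K] in
/-- the norm of `q` is a power of the characteristic of the residue field of `P` -/
theorem RES_add (q : HOS k) (P : HOS K) (hP : P.under (𝓞 k) = q) (x y : 𝓞 K ⧸ P.asIdeal) :
    (x - y) ^ nm q = x ^ nm q - y ^ nm q := by
  have := q.isMaximal
  have := P.isMaximal
  let _ : Field (𝓞 k ⧸ q.asIdeal) := Ideal.Quotient.field q.asIdeal
  let _ : Field (𝓞 K ⧸ P.asIdeal) := Ideal.Quotient.field P.asIdeal
  have : Finite (𝓞 k ⧸ q.asIdeal) := Nat.finite_of_card_ne_zero (by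
    rw [RES_card]
    have := RES_two_le q
    omega)
  have : Fintype (𝓞 k ⧸ q.asIdeal) := Fintype.ofFinite _
  obtain ⟨p, hp⟩ := CharP.exists (𝓞 k ⧸ q.asIdeal)
  obtain ⟨n, hpp, hn⟩ := FiniteField.card (𝓞 k ⧸ q.asIdeal) p
  rw [← Nat.card_eq_fintype_card, RES_card] at hn
  have hp0 : (p : 𝓞 k) ∈ q.asIdeal := by
    rw [← Ideal.Quotient.eq_zero_iff_mem, map_natCast]
    exact CharP.cast_eq_zero _ p
  have hp1 : ((p : ℕ) : 𝓞 K ⧸ P.asIdeal) = 0 := by
    rw [← hP, HeightOneSpectrum.under_asIdeal, Ideal.mem_under, map_natCast] at hp0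
    rw [← map_natCast (Ideal.Quotient.mk P.asIdeal), Ideal.Quotient.eq_zero_iff_mem]
    exact hp0
  have hchar : CharP (𝓞 K ⧸ P.asIdeal) p := by
    obtain ⟨p', hp'⟩ := CharP.exists (𝓞 K ⧸ P.asIdeal)
    have h1 : p' ∣ p := (CharP.cast_eq_zero_iff (𝓞 K ⧸ P.asIdeal) p' p).1 hp1
    rcases (Nat.dvd_prime hpp).1 h1 with h2 | h2
    · rw [h2] at hp'
      have h4 := CharP.cast_eq_zero (𝓞 K ⧸ P.asIdeal) 1
      rw [Nat.cast_one] at h4
      exact absurd h4 one_ne_zero
    · rw [h2] at hp'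
      exact hp'
  have : Fact p.Prime := ⟨hpp⟩
  rw [hn]
  exact sub_pow_char_pow x y n

theorem RES_key (q : HOS k) (P : HOS K) (hP : P.under (𝓞 k) = q) (c : K ≃ₐ[k] K) (hc : c ≠ 1) (a : 𝓞 K) :
    (Ideal.Quotient.mk P.asIdeal a ^ nm q - Ideal.Quotient.mk P.asIdeal a) *
      (Ideal.Quotient.mk P.asIdeal a ^ nm q -
        Ideal.Quotient.mk P.asIdeal (RingOfIntegers.mapRingEquiv (c : K ≃+* K) a)) = 0 := by
  set b : 𝓞 K := RingOfIntegers.mapRingEquiv (c : K ≃+* K) a with hb
  have hbc : (b : K) = c (a : K) := rfl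
  obtain ⟨s, hs⟩ := RES_fixint c hc (a + b) (by
    have h0 : ((a + b : 𝓞 K) : K) = (a : K) + (b : K) := rfl
    rw [h0, map_add, hbc, RES_sq c hc, add_comm])
  obtain ⟨n, hn⟩ := RES_fixint c hc (a * b) (by
    have h0 : ((a * b : 𝓞 K) : K) = (a : K) * (b : K) := rfl
    rw [h0, map_mul, hbc, RES_sq c hc, mul_comm])
  have h1 := RES_fermat2 q P hP s
  have h2 := RES_fermat2 q P hP n
  rw [hs, map_add] at h1
  rw [hn, map_mul] at h2
  set A := Ideal.Quotient.mk P.asIdeal a with hA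
  set B := Ideal.Quotient.mk P.asIdeal b with hB
  have h3 : ((A + B) * A - A * B) ^ nm q = (A + B) ^ nm q * A ^ nm q - (A * B) ^ nm q := by
    rw [RES_add q P hP, mul_pow]
  have h4 : (A + B) * A - A * B = A * A := by ring
  rw [h4, h1, h2, mul_pow] at h3
  have h5 : (A ^ nm q - A) * (A ^ nm q - B) = A ^ nm q * A ^ nm q - ((A + B) * A ^ nm q - A * B) := by ring
  rw [h5, h3, sub_self]

omit [Algebra k K] [Algebra.IsQuadraticExtension k K] in
theorem RES_small (P : HOS K) (N : ℕ) (hN : 2 ≤ N) (h : ∀ y : 𝓞 K ⧸ P.asIdeal, y ^ N = y) :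
    nm P ≤ N := by
  have := P.isMaximal
  let _ : Field (𝓞 K ⧸ P.asIdeal) := Ideal.Quotient.field P.asIdeal
  have : Finite (𝓞 K ⧸ P.asIdeal) := Nat.finite_of_card_ne_zero (by
    rw [RES_card]
    have := RES_two_le P
    omega)
  have : Fintype (𝓞 K ⧸ P.asIdeal) := Fintype.ofFinite _
  have h1 : (Finset.univ : Finset (𝓞 K ⧸ P.asIdeal)).card ≤
      (Polynomial.X ^ N - Polynomial.X : Polynomial (𝓞 K ⧸ P.asIdeal)).natDegree := by
    refine Polynomial.card_le_degree_of_subset_roots fun y _ => ?_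
    rw [Polynomial.mem_roots (FiniteField.X_pow_card_sub_X_ne_zero _ hN)]
    simp [Polynomial.IsRoot, h y]
  rw [FiniteField.X_pow_card_sub_X_natDegree_eq _ hN, Finset.card_univ, ← Nat.card_eq_fintype_card,
    RES_card] at h1
  exact h1

theorem RES_frob (q : HOS k) (P : HOS K) (hP : P.under (𝓞 k) = q) (hPq : nm P = nm q ^ 2)
    (c : K ≃ₐ[k] K) (hc : c ≠ 1) (a : 𝓞 K) :
    Ideal.Quotient.mk P.asIdeal (RingOfIntegers.mapRingEquiv (c : K ≃+* K) a) =
      Ideal.Quotient.mk P.asIdeal a ^ nm q := by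
  have := P.isMaximal
  let _ : Field (𝓞 K ⧸ P.asIdeal) := Ideal.Quotient.field P.asIdeal
  by_contra hcon
  obtain ⟨b, hb⟩ : ∃ b : 𝓞 K, Ideal.Quotient.mk P.asIdeal b ^ nm q ≠ Ideal.Quotient.mk P.asIdeal b := by
    by_contra h1
    push Not at h1
    have h2 := RES_small P (nm q) (RES_two_le q) (fun y => by
      obtain ⟨b, rfl⟩ := Ideal.Quotient.mk_surjective y
      exact h1 b)
    have h3 := RES_two_le q
    rw [hPq] at h2
    nlinarith
  have key : ∀ x : 𝓞 K, Ideal.Quotient.mk P.asIdeal x ^ nm q = Ideal.Quotient.mk P.asIdeal x ∨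
      Ideal.Quotient.mk P.asIdeal x ^ nm q =
        Ideal.Quotient.mk P.asIdeal (RingOfIntegers.mapRingEquiv (c : K ≃+* K) x) := by
    intro x
    rcases mul_eq_zero.1 (RES_key q P hP c hc x) with h | h
    · exact Or.inl (sub_eq_zero.1 h)
    · exact Or.inr (sub_eq_zero.1 h)
  have ha : Ideal.Quotient.mk P.asIdeal a ^ nm q = Ideal.Quotient.mk P.asIdeal a :=
    (key a).resolve_right fun h => hcon h.symm
  have hb2 := (key b).resolve_left hb
  have h1 : Ideal.Quotient.mk P.asIdeal (a - b) ^ nm q =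
      Ideal.Quotient.mk P.asIdeal a ^ nm q - Ideal.Quotient.mk P.asIdeal b ^ nm q := by
    rw [map_sub, RES_add q P hP]
  rcases key (a - b) with h | h
  · rw [h1, ha, map_sub] at h
    exact hb (sub_right_injective h)
  · rw [h1, hb2, map_sub, map_sub] at h
    exact hcon (sub_left_injective h).symm

theorem RES_conj (hORD : ORD_stmt) (q : HOS k) (P : HOS K) (hP : P.under (𝓞 k) = q) (hPq : nm P = nm q ^ 2)
    (c : K ≃ₐ[k] K) (hc : c ≠ 1) (hcP : act (c : K ≃+* K) P = P) (x : K) (hx : P.valuation K x ≤ 1) :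
    RES_r P (c x) = RES_r P x ^ nm q := by
  obtain ⟨a, ha⟩ := RES_exists P x hx
  rw [RES_r_spec P x a ha, ← RES_frob q P hP hPq c hc a]
  refine RES_r_spec P _ _ ?_
  have h1 := ((hORD K).2.2.2.2.2.1 (c : K ≃+* K) P ((a : K) - x)).1
  rw [hcP] at h1
  rw [← h1] at ha
  have h2 : (c : K ≃+* K) ((a : K) - x) =
      ((RingOfIntegers.mapRingEquiv (c : K ≃+* K) a : 𝓞 K) : K) - c x := by
    rw [map_sub]
    rfl
  rw [h2] at ha
  exact ha

end frob

/-- **RES**: residues of the elements of relative norm 1. -/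
theorem RES (hORD : ORD_stmt) (hTYP : TYP_stmt) : RES_stmt := by
  intro k K _ _ _ _ _ _ c hc hck q hq
  set c' : K ≃ₐ[k] K := AlgEquiv.ofRingEquiv (f := c) hck with hc'def
  have hcc : (c' : K ≃+* K) = c := rfl
  have hc' : c' ≠ 1 := by
    intro h
    apply hc
    apply RingEquiv.ext
    intro x
    have h1 := congrArg (fun f : K ≃ₐ[k] K => f x) h
    exact h1
  obtain ⟨o1, o2, o3, o4, o5, o6, o7, o8, o9⟩ := hORD K
  have hval : ∀ x ∈ Ml c {P : HOS K | P.under (𝓞 k) ≠ q} ∅, ∀ P : HOS K, P.under (𝓞 k) = q →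
      P.valuation K (x : K) = 1 := by
    intro x hx P hP
    rw [← o3 _ P x.ne_zero]
    exact hx.2.1 P (fun h => h hP)
  rcases hTYP k K c' hc' q with ⟨ht, P, P', hne, hset, hn, hn', hact, hact', -⟩ |
    ⟨ht, P, hset, hn, hact, -⟩ | ⟨ht, -⟩
  · have hP : P.under (𝓞 k) = q := by
      have : P ∈ {R : HOS K | R.under (𝓞 k) = q} := by rw [hset]; exact Set.mem_insert _ _
      exact this
    have hP' : P'.under (𝓞 k) = q := by
      have : P' ∈ {R : HOS K | R.under (𝓞 k) = q} := by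
        rw [hset]; exact Set.mem_insert_of_mem _ rfl
      exact this
    have h1 := RES_index_split P (Ml c {P : HOS K | P.under (𝓞 k) ≠ q} ∅)
      (Ml c {P : HOS K | P.under (𝓞 k) ≠ q} {P : HOS K | P.under (𝓞 k) = q})
      (fun x hx => (hval x hx P hP).le) (fun x hx hx1 => by
        refine ⟨hx.1, hx.2.1, fun R hR => ?_⟩
        rw [hset] at hR
        rcases hR with rfl | hR
        · exact hx1
        · rw [Set.mem_singleton_iff] at hR
          rw [hR]
          have h2 := (o6 c P ((x : K) - 1)).1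
          rw [← hcc, hact, hcc] at h2
          rw [← h2] at hx1
          have h3 : (x : K) - 1 = -(x : K) * (c ((x : K) - 1)) := by
            have h4 : (x : K) * c x = 1 := hx.1
            rw [map_sub, map_one]
            linear_combination h4
          rw [h3, map_mul, Valuation.map_neg, hval x hx P' hP', one_mul]
          exact hx1)
    rw [ht]
    have h2 : 1 ≤ nm q := le_trans one_le_two (RES_two_le q)
    rw [hn] at h1
    have h3 : ((nm q : ℤ) - 1) = ((nm q - 1 : ℕ) : ℤ) := by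
      push_cast [h2]
      ring
    rw [h3]
    exact_mod_cast h1
  · have hP : P.under (𝓞 k) = q := by
      have : P ∈ {R : HOS K | R.under (𝓞 k) = q} := by rw [hset]; rfl
      exact this
    have h1 := RES_index_inert P (Ml c {P : HOS K | P.under (𝓞 k) ≠ q} ∅)
      (Ml c {P : HOS K | P.under (𝓞 k) ≠ q} {P : HOS K | P.under (𝓞 k) = q})
      (fun x hx => (hval x hx P hP).le) (fun x hx hx1 => by
        refine ⟨hx.1, hx.2.1, fun R hR => ?_⟩
        rw [hset, Set.mem_singleton_iff] at hR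
        rw [hR]
        exact hx1) (nm q) (fun x hx => by
        have hv := hval x hx P hP
        have h2 := RES_conj hORD q P hP hn c' hc' hact (x : K) hv.le
        have h4 : (x : K) * c x = 1 := hx.1
        have hv2 : P.valuation K (c' (x : K)) ≤ 1 := by
          have h5 := congrArg (P.valuation K) h4
          rw [map_mul, hv, one_mul, map_one] at h5
          exact h5.le
        rw [pow_succ, ← h2, ← RES_r_mul P _ _ hv2 hv.le]
        have h6 : c' (x : K) * (x : K) = 1 := by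
          rw [mul_comm]
          exact h4
        rw [h6, RES_r_one])
    rw [ht, sub_neg_eq_add]
    exact_mod_cast h1
  · exact absurd ht hq

end Pool.Agent.RB
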