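import Pool.Agent.helper91.RB.Spec1
import Pool.Agent.helper20.BRZ.POI
import Pool.Agent.helper92.BRZ.POA
import Pool.Agent.helper37.HexB

set_option autoImplicit false

namespace Pool.Agent.RB

open NumberField NumberField.InfinitePlace NumberField.Units NumberField.Units.dirichletUnitTheorem
open MeasureTheory Filter Topology Module
open scoped nonZeroDivisors Real Classical
open scoped SchwartzMap FourierTransform RealInnerProductSpace

/-- the value of the quadratic form of `M` at an integral vector -/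
noncomputable def THB_q {N : ℕ} (M : Matrix (Fin N) (Fin N) ℝ) (x : Fin N → ℝ) : ℝ :=
  x ⬝ᵥ M.mulVec x

theorem THB_pois {N : ℕ} (M : Matrix (Fin N) (Fin N) ℝ) (hM : M.PosDef) :
    Summable (fun n : Fin N → ℤ => Real.exp (-π * THB_q M (fun i => (n i : ℝ)))) ∧
    ∑' n : Fin N → ℤ, Real.exp (-π * THB_q M (fun i => (n i : ℝ))) =
      (Real.sqrt M.det)⁻¹ * ∑' n : Fin N → ℤ, Real.exp (-π * THB_q M⁻¹ (fun i => (n i : ℝ))) := by
  classical
  obtain ⟨B, hB⟩ : ∃ B : Matrix (Fin N) (Fin N) ℝ, M = B.transpose * B := by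
    open scoped MatrixOrder Matrix.Norms.L2Operator in
    obtain ⟨B, hB⟩ := CStarAlgebra.nonneg_iff_eq_star_mul_self.mp hM.posSemidef.nonneg
    refine ⟨B, ?_⟩
    rw [hB, Matrix.star_eq_conjTranspose, Matrix.conjTranspose_eq_transpose_of_trivial]
  have hMd : 0 < M.det := hM.det_pos
  have hdet : M.det = B.det ^ 2 := by
    rw [hB, Matrix.det_mul, Matrix.det_transpose, sq]
  have hBd : B.det ≠ 0 := by
    intro h
    rw [h] at hdet
    norm_num at hdet
    exact hMd.ne' hdet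
  have hBu : IsUnit B.det := isUnit_iff_ne_zero.2 hBd
  -- the linear equivalence
  let A : Pool.Agent.BRZ.EE N ≃ₗ[ℝ] Pool.Agent.BRZ.EE N :=
    LinearEquiv.ofLinearMap (Matrix.toEuclideanLin B) (Matrix.toEuclideanLin B⁻¹)
      (by
        ext v i
        simp [Matrix.toLpLin_apply, Matrix.mul_nonsing_inv B hBu])
      (by
        ext v i
        simp [Matrix.toLpLin_apply, Matrix.nonsing_inv_mul B hBu])
  have hAc : (A : Pool.Agent.BRZ.EE N →ₗ[ℝ] Pool.Agent.BRZ.EE N) = Matrix.toEuclideanLin B := rfl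
  have hAs : (A.symm : Pool.Agent.BRZ.EE N →ₗ[ℝ] Pool.Agent.BRZ.EE N) = Matrix.toEuclideanLin B⁻¹ := rfl
  have hAd : LinearMap.det (A : Pool.Agent.BRZ.EE N →ₗ[ℝ] Pool.Agent.BRZ.EE N) = B.det := by
    rw [hAc, Matrix.toEuclideanLin_eq_toLin_orthonormal, LinearMap.det_toLin]
  obtain ⟨F, hF⟩ := Pool.Agent.helper37.exists_gaussian (V := Pool.Agent.BRZ.EE N) π Real.pi_pos
  have hFF : ∀ w : Pool.Agent.BRZ.EE N, 𝓕 (F : Pool.Agent.BRZ.EE N → ℂ) w =
      Complex.exp (-(π : ℂ) * ((‖w‖ ^ 2 : ℝ) : ℂ)) := by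
    intro w
    have h1 : (F : Pool.Agent.BRZ.EE N → ℂ) = fun v => Complex.exp (-(π : ℂ) * ‖v‖ ^ 2) := by
      funext v
      rw [hF v]
      push_cast
      rfl
    rw [h1, fourier_gaussian_innerProductSpace (b := (π : ℂ)) (by simpa using Real.pi_pos) w]
    rw [div_self (by exact_mod_cast Real.pi_ne_zero), Complex.one_cpow, one_mul]
    congr 1
    have : (π : ℂ) ≠ 0 := by exact_mod_cast Real.pi_ne_zero
    push_cast
    field_simp
  obtain ⟨h1, h2, h3⟩ := Pool.Agent.BRZ.POI Pool.Agent.BRZ.POA N F A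
  have e1 : ∀ n : Fin N → ℤ, F (A (Pool.Agent.BRZ.zv n)) =
      ((Real.exp (-π * THB_q M (fun i => (n i : ℝ))) : ℝ) : ℂ) := by
    intro n
    rw [hF]
    have : ‖A (Pool.Agent.BRZ.zv n)‖ ^ 2 = THB_q M (fun i => (n i : ℝ)) := by
      have h4 : A (Pool.Agent.BRZ.zv n) = WithLp.toLp 2 (B.mulVec (fun i => (n i : ℝ))) := rfl
      rw [h4, EuclideanSpace.norm_sq_eq, THB_q, hB, ← Matrix.mulVec_mulVec, Matrix.dotProduct_mulVec,
        Matrix.vecMul_transpose]
      simp [dotProduct, sq]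
    rw [this]
    push_cast
    rfl
  have e2 : ∀ n : Fin N → ℤ, 𝓕 (F : Pool.Agent.BRZ.EE N → ℂ)
      (LinearMap.adjoint (A.symm : Pool.Agent.BRZ.EE N →ₗ[ℝ] Pool.Agent.BRZ.EE N) (Pool.Agent.BRZ.zv n)) =
      ((Real.exp (-π * THB_q M⁻¹ (fun i => (n i : ℝ))) : ℝ) : ℂ) := by
    intro n
    rw [hFF]
    have : ‖LinearMap.adjoint (A.symm : Pool.Agent.BRZ.EE N →ₗ[ℝ] Pool.Agent.BRZ.EE N) (Pool.Agent.BRZ.zv n)‖ ^ 2
        = THB_q M⁻¹ (fun i => (n i : ℝ)) := by
      have h4 : LinearMap.adjoint (A.symm : Pool.Agent.BRZ.EE N →ₗ[ℝ] Pool.Agent.BRZ.EE N)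
          (Pool.Agent.BRZ.zv n) = WithLp.toLp 2 ((B⁻¹).transpose.mulVec (fun i => (n i : ℝ))) := by
        rw [hAs, ← Matrix.toEuclideanLin_conjTranspose_eq_adjoint,
          Matrix.conjTranspose_eq_transpose_of_trivial]
        rfl
      rw [h4, EuclideanSpace.norm_sq_eq, THB_q, hB, Matrix.mul_inv_rev, ← Matrix.mulVec_mulVec,
        Matrix.dotProduct_mulVec, ← Matrix.transpose_nonsing_inv, ← Matrix.mulVec_transpose]
      simp [dotProduct, sq]
    rw [this]
    push_cast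
    rfl
  simp only [e1] at h1 h3
  simp only [e2] at h2 h3
  refine ⟨by exact_mod_cast h1, ?_⟩
  rw [hAd] at h3
  have h5 : Real.sqrt M.det = |B.det| := by
    rw [hdet, Real.sqrt_sq_eq_abs]
  rw [h5]
  exact_mod_cast h3

section field

variable {K : Type} [Field K] [NumberField K]

theorem THB_qf (t : InfinitePlace K → ℝ) (x : K) :
    ∑ φ : K →+* ℂ, t (InfinitePlace.mk φ) * ‖φ x‖ ^ 2 = qf K t x := by
  rw [qf, ← Finset.sum_fiberwise Finset.univ InfinitePlace.mk
    (fun φ : K →+* ℂ => t (InfinitePlace.mk φ) * ‖φ x‖ ^ 2)]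
  refine Finset.sum_congr rfl fun w _ => ?_
  have h : ∀ φ ∈ (Finset.univ.filter (fun φ : K →+* ℂ => InfinitePlace.mk φ = w)),
      t (InfinitePlace.mk φ) * ‖φ x‖ ^ 2 = t w * w x ^ 2 := by
    intro φ hφ
    rw [Finset.mem_filter] at hφ
    rw [← hφ.2, InfinitePlace.apply]
  rw [Finset.sum_congr rfl h, Finset.sum_const, card_filter_mk_eq, nsmul_eq_mul]
  ring

theorem THB_prod (t : InfinitePlace K → ℝ) :
    ∏ φ : K →+* ℂ, t (InfinitePlace.mk φ) = ∏ v : InfinitePlace K, t v ^ v.mult := by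
  rw [← Finset.prod_fiberwise Finset.univ InfinitePlace.mk
    (fun φ : K →+* ℂ => t (InfinitePlace.mk φ))]
  refine Finset.prod_congr rfl fun w _ => ?_
  have h : ∀ φ ∈ (Finset.univ.filter (fun φ : K →+* ℂ => InfinitePlace.mk φ = w)),
      t (InfinitePlace.mk φ) = t w := by
    intro φ hφ
    rw [Finset.mem_filter] at hφ
    rw [← hφ.2]
  rw [Finset.prod_congr rfl h, Finset.prod_const, card_filter_mk_eq]

theorem THB_conj (t : InfinitePlace K → ℝ) (x y : K) :
    ∑ φ : K →+* ℂ, ((t (InfinitePlace.mk φ) : ℝ) : ℂ) * (starRingEnd ℂ (φ x) * φ y) =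
      ∑ φ : K →+* ℂ, ((t (InfinitePlace.mk φ) : ℝ) : ℂ) * (φ x * starRingEnd ℂ (φ y)) := by
  refine Fintype.sum_equiv (Function.Involutive.toPerm ComplexEmbedding.conjugate
    (ComplexEmbedding.involutive_conjugate K)) _ _ fun φ => ?_
  simp [ComplexEmbedding.conjugate_coe_eq]

theorem THB_re (t : InfinitePlace K → ℝ) (x y : K) :
    ((∑ φ : K →+* ℂ, t (InfinitePlace.mk φ) * (starRingEnd ℂ (φ x) * φ y).re : ℝ) : ℂ) =
      ∑ φ : K →+* ℂ, ((t (InfinitePlace.mk φ) : ℝ) : ℂ) * (starRingEnd ℂ (φ x) * φ y) := by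
  have h1 : starRingEnd ℂ (∑ φ : K →+* ℂ, ((t (InfinitePlace.mk φ) : ℝ) : ℂ) * (starRingEnd ℂ (φ x) * φ y)) =
      ∑ φ : K →+* ℂ, ((t (InfinitePlace.mk φ) : ℝ) : ℂ) * (starRingEnd ℂ (φ x) * φ y) := by
    rw [THB_conj]
    rw [← THB_conj t x y, map_sum]
    rw [THB_conj]
    refine Finset.sum_congr rfl fun φ _ => ?_
    simp
  rw [Complex.conj_eq_iff_re] at h1
  rw [← h1]
  congr 1
  rw [Complex.re_sum]
  refine Finset.sum_congr rfl fun φ _ => ?_
  rw [Complex.re_ofReal_mul]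

variable {N : ℕ}

/-- the Gram matrix -/
noncomputable def THB_M (t : InfinitePlace K → ℝ) (b : Fin N → K) : Matrix (Fin N) (Fin N) ℝ :=
  Matrix.of fun i j => ∑ φ : K →+* ℂ, t (InfinitePlace.mk φ) * (starRingEnd ℂ (φ (b i)) * φ (b j)).re

/-- the matrix of the embeddings -/
noncomputable def THB_G (e : Fin N ≃ (K →+* ℂ)) (b : Fin N → K) : Matrix (Fin N) (Fin N) ℂ :=
  Matrix.of fun i j => e j (b i)

/-- the diagonal matrix -/
noncomputable def THB_D (e : Fin N ≃ (K →+* ℂ)) (t : InfinitePlace K → ℝ) : Matrix (Fin N) (Fin N) ℂ :=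
  Matrix.diagonal fun j => ((t (InfinitePlace.mk (e j)) : ℝ) : ℂ)

theorem THB_M1 (e : Fin N ≃ (K →+* ℂ)) (t : InfinitePlace K → ℝ) (b : Fin N → K) :
    (THB_M t b).map (fun x : ℝ => (x : ℂ)) =
      (THB_G e b).map (starRingEnd ℂ) * THB_D e t * (THB_G e b).transpose := by
  ext i j
  rw [Matrix.map_apply, THB_M, Matrix.of_apply, THB_re, Matrix.mul_apply]
  rw [← Equiv.sum_comp e]
  refine Finset.sum_congr rfl fun k _ => ?_
  rw [THB_D, Matrix.mul_diagonal, Matrix.map_apply, Matrix.transpose_apply]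
  simp only [THB_G, Matrix.of_apply]
  ring

theorem THB_M2 (e : Fin N ≃ (K →+* ℂ)) (t : InfinitePlace K → ℝ) (b : Fin N → K) :
    (THB_M t b).map (fun x : ℝ => (x : ℂ)) =
      (THB_G e b) * THB_D e t * ((THB_G e b).map (starRingEnd ℂ)).transpose := by
  ext i j
  rw [Matrix.map_apply, THB_M, Matrix.of_apply, THB_re, THB_conj, Matrix.mul_apply]
  rw [← Equiv.sum_comp e]
  refine Finset.sum_congr rfl fun k _ => ?_
  rw [THB_D, Matrix.mul_diagonal, Matrix.transpose_apply, Matrix.map_apply]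
  simp only [THB_G, Matrix.of_apply]
  ring

theorem THB_G_disc (e : Fin N ≃ (K →+* ℂ)) (b : Fin N → K) :
    (THB_G e b).det ^ 2 = ((Algebra.discr ℚ b : ℚ) : ℂ) := by
  have h := Algebra.discr_eq_det_embeddingsMatrixReindex_pow_two ℚ ℂ b
    (e.trans (RingHom.equivRatAlgHom K ℂ))
  rw [eq_ratCast] at h
  rw [h]
  rfl

theorem THB_detM (e : Fin N ≃ (K →+* ℂ)) (t : InfinitePlace K → ℝ) (b : Fin N → K) :
    (THB_M t b).det = |((Algebra.discr ℚ b : ℚ) : ℝ)| * ∏ v : InfinitePlace K, t v ^ v.mult := by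
  have h1 : (((THB_M t b).det : ℝ) : ℂ) =
      ((|((Algebra.discr ℚ b : ℚ) : ℝ)| * ∏ v : InfinitePlace K, t v ^ v.mult : ℝ) : ℂ) := by
    have h2 : (((THB_M t b).det : ℝ) : ℂ) = ((THB_M t b).map (fun x : ℝ => (x : ℂ))).det := by
      have := RingHom.map_det Complex.ofRealHom (THB_M t b)
      exact this
    rw [h2, THB_M1 e, Matrix.det_mul, Matrix.det_mul, Matrix.det_transpose, THB_D, Matrix.det_diagonal]
    have h3 : ((THB_G e b).map (starRingEnd ℂ)).det = starRingEnd ℂ (THB_G e b).det :=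
      (RingHom.map_det (starRingEnd ℂ) (THB_G e b)).symm
    rw [h3]
    have h4 : ∏ i : Fin N, ((t (InfinitePlace.mk (e i)) : ℝ) : ℂ) =
        ((∏ v : InfinitePlace K, t v ^ v.mult : ℝ) : ℂ) := by
      rw [← THB_prod, ← Equiv.prod_comp e]
      push_cast
      rfl
    rw [h4]
    have h5 : starRingEnd ℂ (THB_G e b).det * (THB_G e b).det = ((|((Algebra.discr ℚ b : ℚ) : ℝ)| : ℝ) : ℂ) := by
      rw [mul_comm, Complex.mul_conj']
      have h6 : ‖(THB_G e b).det‖ ^ 2 = |((Algebra.discr ℚ b : ℚ) : ℝ)| := by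
        rw [← norm_pow, THB_G_disc, ← Complex.ofReal_ratCast, Complex.norm_real, Real.norm_eq_abs]
      rw [← h6]
      push_cast
      rfl
    calc starRingEnd ℂ (THB_G e b).det * ((∏ v : InfinitePlace K, t v ^ v.mult : ℝ) : ℂ) * (THB_G e b).det
        = (starRingEnd ℂ (THB_G e b).det * (THB_G e b).det) *
          ((∏ v : InfinitePlace K, t v ^ v.mult : ℝ) : ℂ) := by ring
      _ = _ := by rw [h5]; push_cast; rfl
  exact_mod_cast h1

theorem THB_M_symm (t : InfinitePlace K → ℝ) (b : Fin N → K) : (THB_M t b).IsHermitian := by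
  ext i j
  rw [Matrix.conjTranspose_apply, THB_M, Matrix.of_apply, Matrix.of_apply, star_trivial]
  refine Finset.sum_congr rfl fun φ _ => ?_
  congr 1
  simp only [Complex.mul_re, Complex.conj_re, Complex.conj_im]
  ring

theorem THB_M_q (t : InfinitePlace K → ℝ) (b : Fin N → K) (x : Fin N → ℝ) :
    THB_q (THB_M t b) x = ∑ φ : K →+* ℂ, t (InfinitePlace.mk φ) * ‖∑ j, (x j : ℂ) * φ (b j)‖ ^ 2 := by
  have h1 : ∀ φ : K →+* ℂ, ‖∑ j, (x j : ℂ) * φ (b j)‖ ^ 2 =
      ∑ i, ∑ j, x i * x j * (starRingEnd ℂ (φ (b i)) * φ (b j)).re := by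
    intro φ
    have h2 : ((‖∑ j, (x j : ℂ) * φ (b j)‖ ^ 2 : ℝ) : ℂ) =
        starRingEnd ℂ (∑ j, (x j : ℂ) * φ (b j)) * (∑ j, (x j : ℂ) * φ (b j)) := by
      rw [Complex.conj_mul']
      push_cast
      rfl
    have h3 := congrArg Complex.re h2
    rw [Complex.ofReal_re] at h3
    rw [h3, map_sum, Finset.sum_mul_sum, Complex.re_sum]
    refine Finset.sum_congr rfl fun i _ => ?_
    rw [Complex.re_sum]
    refine Finset.sum_congr rfl fun j _ => ?_
    rw [map_mul, Complex.conj_ofReal]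
    have : (x i : ℂ) * starRingEnd ℂ (φ (b i)) * ((x j : ℂ) * φ (b j)) =
        ((x i * x j : ℝ) : ℂ) * (starRingEnd ℂ (φ (b i)) * φ (b j)) := by
      push_cast
      ring
    rw [this, Complex.re_ofReal_mul]
  simp only [h1]
  rw [THB_q, dotProduct]
  simp only [Matrix.mulVec, dotProduct, THB_M, Matrix.of_apply, Finset.mul_sum, Finset.sum_mul]
  rw [Finset.sum_comm' (s := Finset.univ) (t := fun _ : K →+* ℂ => Finset.univ) (t' := Finset.univ)
    (s' := fun _ => Finset.univ) (by simp)]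
  refine Finset.sum_congr rfl fun i _ => ?_
  rw [Finset.sum_comm' (s := Finset.univ) (t := fun _ : K →+* ℂ => Finset.univ) (t' := Finset.univ)
    (s' := fun _ => Finset.univ) (by simp)]
  refine Finset.sum_congr rfl fun j _ => ?_
  refine Finset.sum_congr rfl fun φ _ => ?_
  ring

theorem THB_posDef (e : Fin N ≃ (K →+* ℂ)) (t : InfinitePlace K → ℝ) (ht : ∀ v, 0 < t v)
    (b : Fin N → K) (hb : Algebra.discr ℚ b ≠ 0) : (THB_M t b).PosDef := by
  refine Matrix.PosDef.of_dotProduct_mulVec_pos (THB_M_symm t b) fun x hx => ?_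
  rw [star_trivial]
  change 0 < THB_q (THB_M t b) x
  rw [THB_M_q]
  have h0 : ∀ φ : K →+* ℂ, 0 ≤ t (InfinitePlace.mk φ) * ‖∑ j, (x j : ℂ) * φ (b j)‖ ^ 2 := fun φ =>
    mul_nonneg (ht _).le (sq_nonneg _)
  by_contra hcon
  have hz : ∑ φ : K →+* ℂ, t (InfinitePlace.mk φ) * ‖∑ j, (x j : ℂ) * φ (b j)‖ ^ 2 = 0 :=
    le_antisymm (not_lt.1 hcon) (Finset.sum_nonneg fun φ _ => h0 φ)
  rw [Finset.sum_eq_zero_iff_of_nonneg (fun φ _ => h0 φ)] at hz
  have hz' : ∀ φ : K →+* ℂ, ∑ j, (x j : ℂ) * φ (b j) = 0 := by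
    intro φ
    have := hz φ (Finset.mem_univ _)
    rcases mul_eq_zero.1 this with h | h
    · exact absurd h (ht _).ne'
    · simpa using h
  have hG : (THB_G e b).det ≠ 0 := by
    intro h
    have := THB_G_disc e b
    rw [h] at this
    norm_num at this
    exact hb (by exact_mod_cast this.symm)
  have hv : Matrix.vecMul (fun j => (x j : ℂ)) (THB_G e b) = 0 := by
    ext k
    simp only [Matrix.vecMul, dotProduct, THB_G, Matrix.of_apply, Pi.zero_apply]
    exact hz' (e k)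
  have := Matrix.eq_zero_of_vecMul_eq_zero hG hv
  apply hx
  ext j
  have hj := congrFun this j
  simp only [Pi.zero_apply, Complex.ofReal_eq_zero] at hj
  simpa using hj

theorem THB_inv (e : Fin N ≃ (K →+* ℂ)) (t : InfinitePlace K → ℝ) (ht : ∀ v, 0 < t v)
    (b b' : Fin N → K) (hb : ∀ i j, Algebra.trace ℚ K (b' i * b j) = if j = i then 1 else 0) :
    (THB_M t b)⁻¹ = THB_M (fun v => (t v)⁻¹) b' := by
  have hG : THB_G e b' * (THB_G e b).transpose = 1 := by
    ext i j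
    rw [Matrix.mul_apply, Matrix.one_apply]
    simp only [Matrix.transpose_apply, THB_G, Matrix.of_apply]
    have h1 := trace_eq_sum_embeddings (K := ℚ) (L := K) ℂ (x := b' i * b j)
    rw [hb i j] at h1
    rw [← Equiv.sum_comp (e.trans (RingHom.equivRatAlgHom K ℂ))] at h1
    have h2 : ∑ k, (e k) (b' i) * (e k) (b j) =
        ∑ k, ((e.trans (RingHom.equivRatAlgHom K ℂ)) k) (b' i * b j) := by
      refine Finset.sum_congr rfl fun k _ => ?_
      rw [map_mul]
      rfl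
    rw [h2, ← h1]
    split_ifs with h3 h4 h4
    · simp
    · exact absurd h3.symm h4
    · exact absurd h4.symm h3
    · simp
  have hG2 : (THB_G e b).transpose * THB_G e b' = 1 := mul_eq_one_comm.1 hG
  have hG3 : (THB_G e b).map (starRingEnd ℂ) * ((THB_G e b').map (starRingEnd ℂ)).transpose = 1 := by
    have h1 : THB_G e b * (THB_G e b').transpose = 1 := by
      have := congrArg Matrix.transpose hG
      rwa [Matrix.transpose_mul, Matrix.transpose_transpose, Matrix.transpose_one] at this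
    have h2 : (THB_G e b * (THB_G e b').transpose).map (starRingEnd ℂ) =
        (1 : Matrix (Fin N) (Fin N) ℂ).map (starRingEnd ℂ) := by rw [h1]
    rw [Matrix.map_mul] at h2
    rw [← Matrix.transpose_map, h2]
    exact Matrix.map_one _ (map_zero _) (map_one _)
  have hD : THB_D e t * THB_D e (fun v => (t v)⁻¹) = 1 := by
    rw [THB_D, THB_D, Matrix.diagonal_mul_diagonal, ← Matrix.diagonal_one]
    congr 1
    funext j
    rw [← Complex.ofReal_mul, mul_inv_cancel₀ (ht _).ne', Complex.ofReal_one]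
  have h1 : THB_M t b * THB_M (fun v => (t v)⁻¹) b' = 1 := by
    have h2 : (THB_M t b * THB_M (fun v => (t v)⁻¹) b').map (fun x : ℝ => (x : ℂ)) =
        (1 : Matrix (Fin N) (Fin N) ℝ).map (fun x : ℝ => (x : ℂ)) := by
      have h3 : (THB_M t b * THB_M (fun v => (t v)⁻¹) b').map (fun x : ℝ => (x : ℂ)) =
          (THB_M t b).map (fun x : ℝ => (x : ℂ)) * (THB_M (fun v => (t v)⁻¹) b').map (fun x : ℝ => (x : ℂ)) :=
        Matrix.map_mul (f := Complex.ofRealHom)
      have h4 : (1 : Matrix (Fin N) (Fin N) ℝ).map (fun x : ℝ => (x : ℂ)) = 1 :=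
        Matrix.map_one _ (by simp) (by simp)
      rw [h3, h4, THB_M1 e t b, THB_M2 e (fun v => (t v)⁻¹) b']
      calc (THB_G e b).map (starRingEnd ℂ) * THB_D e t * (THB_G e b).transpose *
            (THB_G e b' * THB_D e (fun v => (t v)⁻¹) * ((THB_G e b').map (starRingEnd ℂ)).transpose)
          = (THB_G e b).map (starRingEnd ℂ) * (THB_D e t * ((THB_G e b).transpose * THB_G e b') *
            THB_D e (fun v => (t v)⁻¹)) * ((THB_G e b').map (starRingEnd ℂ)).transpose := by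
            simp only [Matrix.mul_assoc]
        _ = 1 := by rw [hG2, Matrix.mul_one, hD, Matrix.mul_one, hG3]
    have h5 : Function.Injective (fun X : Matrix (Fin N) (Fin N) ℝ => X.map (fun x : ℝ => (x : ℂ))) :=
      Matrix.map_injective Complex.ofReal_injective
    exact h5 h2
  exact Matrix.inv_eq_right_inv h1

end field


theorem THB_span {K : Type} [Field K] [NumberField K] (b : Basis (Fin (finrank ℚ K)) ℚ K) :
    ∃ f : (Fin (finrank ℚ K) → ℤ) ≃ (Submodule.span ℤ (Set.range b) : Submodule ℤ K),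
      ∀ n, ((f n : (Submodule.span ℤ (Set.range b) : Submodule ℤ K)) : K) = ∑ i, (n i : K) * b i := by
  have hli : LinearIndependent ℤ b := b.linearIndependent.restrict_scalars' ℤ
  refine ⟨(Basis.span hli).equivFun.symm.toEquiv, fun n => ?_⟩
  have h1 : (Basis.span hli).equivFun.symm n = ∑ i, n i • (Basis.span hli) i :=
    Basis.equivFun_symm_apply _ _
  change (((Basis.span hli).equivFun.symm n : Submodule.span ℤ (Set.range b)) : K) = _
  rw [h1, Submodule.coe_sum]
  refine Finset.sum_congr rfl fun i _ => ?_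
  rw [Submodule.coe_smul, Basis.span_apply, zsmul_eq_mul]

theorem THB_qfM {K : Type} [Field K] [NumberField K] {N : ℕ} (t : InfinitePlace K → ℝ) (b : Fin N → K)
    (n : Fin N → ℤ) : qf K t (∑ i, (n i : K) * b i) = THB_q (THB_M t b) (fun i => (n i : ℝ)) := by
  rw [THB_M_q, ← THB_qf]
  refine Finset.sum_congr rfl fun φ _ => ?_
  rw [map_sum]
  simp only [map_mul, map_intCast, Complex.ofReal_intCast]

theorem THB : THB_stmt := by
  intro K _ _ b t ht
  have hcard : Fintype.card (K →+* ℂ) = finrank ℚ K := Embeddings.card K ℂ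
  let e : Fin (finrank ℚ K) ≃ (K →+* ℂ) := (Fintype.equivFinOfCardEq hcard).symm
  have hdisc : Algebra.discr ℚ b ≠ 0 := Algebra.discr_not_zero_of_basis ℚ b
  have hPD := THB_posDef e t ht b hdisc
  obtain ⟨h1, h2⟩ := THB_pois (THB_M t b) hPD
  obtain ⟨f, hf⟩ := THB_span b
  obtain ⟨g, hg⟩ := THB_span ((Algebra.traceForm ℚ K).dualBasis (traceForm_nondegenerate ℚ K) b)
  have hinv : (THB_M t b)⁻¹ = THB_M (fun v => (t v)⁻¹)
      ((Algebra.traceForm ℚ K).dualBasis (traceForm_nondegenerate ℚ K) b) := by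
    refine THB_inv e t ht _ _ fun i j => ?_
    have := (Algebra.traceForm ℚ K).apply_dualBasis_left (traceForm_nondegenerate ℚ K) b i j
    rwa [Algebra.traceForm_apply] at this
  have ef : ∀ n, Real.exp (-π * qf K t (f n)) = Real.exp (-π * THB_q (THB_M t b) (fun i => (n i : ℝ))) := by
    intro n
    rw [hf n, THB_qfM]
  have eg : ∀ n, Real.exp (-π * qf K (fun v => (t v)⁻¹) (g n)) =
      Real.exp (-π * THB_q (THB_M t b)⁻¹ (fun i => (n i : ℝ))) := by
    intro n
    rw [hg n, THB_qfM, hinv]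
  refine ⟨?_, ?_⟩
  · rw [← Equiv.summable_iff f]
    refine h1.congr fun n => ?_
    exact (ef n).symm
  · have t1 : th K (Submodule.span ℤ (Set.range b) : Submodule ℤ K) t =
        ∑' n : Fin (finrank ℚ K) → ℤ, Real.exp (-π * THB_q (THB_M t b) (fun i => (n i : ℝ))) := by
      rw [th]
      exact (Equiv.tsum_eq f (fun x : (Submodule.span ℤ (Set.range b) : Submodule ℤ K) =>
        Real.exp (-π * qf K t x))).symm.trans (tsum_congr ef)
    have t2 : th K (Submodule.span ℤ (Set.range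
        ((Algebra.traceForm ℚ K).dualBasis (traceForm_nondegenerate ℚ K) b)) : Submodule ℤ K)
        (fun v => (t v)⁻¹) =
        ∑' n : Fin (finrank ℚ K) → ℤ, Real.exp (-π * THB_q (THB_M t b)⁻¹ (fun i => (n i : ℝ))) := by
      rw [th]
      exact (Equiv.tsum_eq g (fun x : (Submodule.span ℤ (Set.range
        ((Algebra.traceForm ℚ K).dualBasis (traceForm_nondegenerate ℚ K) b)) : Submodule ℤ K) =>
        Real.exp (-π * qf K (fun v => (t v)⁻¹) x))).symm.trans (tsum_congr eg)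
    rw [t1, t2, h2, THB_detM e]
    congr 1
    rw [Real.sqrt_mul (abs_nonneg _), mul_inv]
    congr 1
    rw [Real.sqrt_eq_rpow, ← Real.finsetProd_rpow _ _ (fun v _ => pow_nonneg (ht v).le _), ← Finset.prod_inv_distrib]
    refine Finset.prod_congr rfl fun v _ => ?_
    rw [← Real.rpow_natCast, ← Real.rpow_mul (ht v).le, ← Real.rpow_neg (ht v).le]
    congr 1
    ring

end Pool.Agent.RB
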